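import Pool.Agent.Lib_helper47.RBrouwer

/-!
# Vertex lemma for matrix Riccati equations (MP_4c716f_mp), part 3: fixed points
-/

set_option autoImplicit false

namespace Pool.Agent.LTV

open Set Metric

/-- A continuous self map with bounded range of a finite dimensional real normed space has a fixed
point (Brouwer). -/
theorem exists_fixed {X : Type*} [NormedAddCommGroup X] [NormedSpace ℝ X] [FiniteDimensional ℝ X]
    (f : X → X) (hf : Continuous f) (r : ℝ) (hr : ∀ x, ‖f x‖ ≤ r) : ∃ x, f x = x := by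
  set n := Module.finrank ℝ X with hn
  let e : X ≃L[ℝ] EuclideanSpace ℝ (Fin n) :=
    ContinuousLinearEquiv.ofFinrankEq (by rw [finrank_euclideanSpace_fin])
  -- bound of the transported map
  obtain ⟨C, hC0, hC⟩ : ∃ C : ℝ, 0 < C ∧ ∀ x, ‖e x‖ ≤ C * ‖x‖ := by
    obtain ⟨C, hC, h⟩ := (e : X →L[ℝ] EuclideanSpace ℝ (Fin n)).isBoundedLinearMap.bound
    exact ⟨C, hC, h⟩
  set R : ℝ := C * |r| + 1 with hR
  have hR0 : 0 < R := by positivity
  set g : EuclideanSpace ℝ (Fin n) → EuclideanSpace ℝ (Fin n) :=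
    fun y => R⁻¹ • e (f (e.symm (R • y))) with hg
  have hgc : Continuous g := by
    have h1 : Continuous fun y : EuclideanSpace ℝ (Fin n) => e.symm (R • y) :=
      e.symm.continuous.comp (continuous_const_smul R)
    exact (e.continuous.comp (hf.comp h1)).const_smul R⁻¹
  have hgb : ∀ y, ‖g y‖ ≤ 1 := by
    intro y
    simp only [hg]
    rw [norm_smul, norm_inv, Real.norm_of_nonneg hR0.le, inv_mul_le_iff₀ hR0, mul_one]
    calc ‖e (f (e.symm (R • y)))‖ ≤ C * ‖f (e.symm (R • y))‖ := hC _
      _ ≤ C * |r| := by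
        apply mul_le_mul_of_nonneg_left _ hC0.le
        exact (hr _).trans (le_abs_self r)
      _ ≤ R := by rw [hR]; linarith
  obtain ⟨y, hy, hfy⟩ := Pool.Agent.Lib_helper47.R.brouwer (f := g) hgc.continuousOn
    (fun y _ => by rw [mem_closedBall, dist_zero_right]; exact hgb y)
  refine ⟨e.symm (R • y), ?_⟩
  have h1 : R • y = e (f (e.symm (R • y))) := by
    have h2 : R⁻¹ • e (f (e.symm (R • y))) = y := hfy
    have h3 : R • (R⁻¹ • e (f (e.symm (R • y)))) = R • y := by rw [h2]
    rw [smul_smul, mul_inv_cancel₀ hR0.ne', one_smul] at h3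
    exact h3.symm
  rw [← e.symm_apply_apply (f (e.symm (R • y))), ← h1]

end Pool.Agent.LTV
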