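import Pool.Agent.LTV.Posop
import Pool.Agent.LTV.Fix

/-!
# Vertex lemma for matrix Riccati equations (MP_4c716f_mp), part 6: the vertex lemma for operators
-/

set_option autoImplicit false

namespace Pool.Agent.LTV

open Set Metric
open scoped NNReal Topology InnerProductSpace

variable {E : Type*} [NormedAddCommGroup E] [InnerProductSpace ℂ E] [CompleteSpace E]

omit [CompleteSpace E] in
lemma tru_eq_smul (τ : ℝ) (B : E →L[ℂ] E) : tru τ B = (τ / max τ ‖B‖) • B := rfl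

/-- the solutions of the truncated equation are nonnegative -/
theorem sol_pos {τ : ℝ} (hτ : 0 < τ) {V : (E →L[ℂ] E) → ℝ → E →L[ℂ] E}
    (hVs : ∀ κ t, IsSelfAdjoint (V κ t)) (hVp : ∀ κ t v, 0 ≤ (⟪V κ t v, v⟫_ℂ).re)
    {T : ℝ} (hT : 0 ≤ T) {κ : E →L[ℂ] E} {B : ℝ → E →L[ℂ] E} (h0 : B 0 = 0)
    (hB : ∀ t ∈ Icc 0 T, HasDerivWithinAt B (fld τ V κ t (B t)) (Icc 0 T) t) :
    ∀ t ∈ Icc 0 T, ∀ v, 0 ≤ (⟪B t v, v⟫_ℂ).re := by
  have hsa := sol_sa hVs h0 hB
  have hBc : ContinuousOn B (Icc 0 T) := fun s hs => (hB s hs).continuousWithinAt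
  set Bx : ℝ → E →L[ℂ] E := fun t => B (projIcc 0 T hT t) with hBx
  have hBxc : Continuous Bx := by
    have := hBc.domRestrict.comp (continuous_projIcc (a := (0:ℝ)) (b := T) (h := hT))
    exact this
  have hBxs : ∀ t, IsSelfAdjoint (Bx t) := fun t => hsa _ (projIcc 0 T hT t).2
  set θ : ℝ → ℝ := fun t => τ / max τ ‖Bx t‖ with hθ
  have hmax : ∀ t, 0 < max τ ‖Bx t‖ := fun t => lt_max_of_lt_left hτ
  have hθc : Continuous θ :=
    continuous_const.div (continuous_const.max hBxc.norm) (fun t => (hmax t).ne')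
  have hθ0 : ∀ t, 0 ≤ θ t := fun t => div_nonneg hτ.le (hmax t).le
  have hθ1 : ∀ t, θ t ≤ 1 := fun t => by
    simp only [hθ]
    rw [div_le_one (hmax t)]
    exact le_max_left _ _
  have hθB : ∀ t, θ t * ‖Bx t‖ ≤ τ := fun t => by
    simp only [hθ]
    rw [div_mul_eq_mul_div, div_le_iff₀ (hmax t)]
    exact mul_le_mul_of_nonneg_left (le_max_right _ _) hτ.le
  set M : ℝ → E →L[ℂ] E := fun t => θ t • sap κ - (θ t ^ 2 / 2) • Bx t with hM
  have hMc : Continuous M :=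
    (hθc.smul continuous_const).sub (((hθc.pow 2).div_const 2).smul hBxc)
  have hMn : ∀ t, ‖M t‖ ≤ (⟨‖κ‖ + τ, by positivity⟩ : ℝ≥0) := by
    intro t
    change ‖θ t • sap κ - (θ t ^ 2 / 2) • Bx t‖ ≤ ‖κ‖ + τ
    have h1 : ‖θ t • sap κ‖ ≤ ‖κ‖ := by
      rw [norm_smul, Real.norm_of_nonneg (hθ0 t)]
      calc θ t * ‖sap κ‖ ≤ 1 * ‖κ‖ := mul_le_mul (hθ1 t) (norm_sap_le κ) (norm_nonneg _) zero_le_one
        _ = ‖κ‖ := one_mul _
    have h2 : ‖(θ t ^ 2 / 2) • Bx t‖ ≤ τ := by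
      rw [norm_smul, Real.norm_of_nonneg (by have := hθ0 t; positivity)]
      have h3 := hθB t
      have h4 : θ t * (θ t * ‖Bx t‖) ≤ 1 * τ := mul_le_mul (hθ1 t) h3
        (mul_nonneg (hθ0 t) (norm_nonneg _)) zero_le_one
      nlinarith
    have h3 := norm_sub_le (θ t • sap κ) ((θ t ^ 2 / 2) • Bx t)
    linarith
  have hMs : ∀ t, IsSelfAdjoint (M t) := by
    intro t
    rw [isSelfAdjoint_iff]
    simp only [hM, star_sub, star_smul, star_trivial, (sap_sa κ).star_eq, (hBxs t).star_eq]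
  refine pos_ode (W := fun t => V κ t) hMc hMn hMs (fun t _ v => hVp κ t v) ?_ ?_
  · intro t ht
    have h1 := hB t ht
    have hpt : Bx t = B t := by
      simp only [hBx]
      rw [projIcc_of_mem hT ht]
    have h2 : fld τ V κ t (B t) = V κ t - (M t * B t + B t * M t) := by
      have hsB : sap (B t) = B t := sap_of_sa (hsa t ht)
      unfold fld
      rw [hsB, tru_eq_smul]
      simp only [hM, hθ, hpt]
      set c := τ / max τ ‖B t‖
      simp only [mul_sub, sub_mul, smul_mul_assoc, mul_smul_comm, smul_smul]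
      module
    rw [h2] at h1
    exact h1
  · intro v
    rw [h0]
    simp

/-- backwards in time: as long as the truncation is inactive, `B ≤ 2κ` -/
theorem back_pos {τ : ℝ} (hτ : 0 < τ) {V : (E →L[ℂ] E) → ℝ → E →L[ℂ] E}
    (hVs : ∀ κ t, IsSelfAdjoint (V κ t)) (hVp : ∀ κ t v, 0 ≤ (⟪V κ t v, v⟫_ℂ).re)
    {T : ℝ} {κ : E →L[ℂ] E} (hκ : IsSelfAdjoint κ) {B : ℝ → E →L[ℂ] E} (h0 : B 0 = 0)
    (hB : ∀ t ∈ Icc 0 T, HasDerivWithinAt B (fld τ V κ t (B t)) (Icc 0 T) t)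
    (hBT : B T = (2 : ℝ) • κ) {y : ℝ} (hy : y ∈ Icc 0 T)
    (hn : ∀ z ∈ Icc 0 y, ‖B (T - z)‖ ≤ τ) :
    ∀ v, 0 ≤ (⟪((2 : ℝ) • κ - B (T - y)) v, v⟫_ℂ).re := by
  have hsa := sol_sa hVs h0 hB
  have hBc : ContinuousOn B (Icc 0 T) := fun s hs => (hB s hs).continuousWithinAt
  have hmaps : MapsTo (fun z => T - z) (Icc 0 y) (Icc 0 T) := by
    intro z hz
    exact ⟨by linarith [hz.2, hy.2], by linarith [hz.1]⟩
  have hDc : ContinuousOn (fun z => B (T - z)) (Icc 0 y) :=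
    hBc.comp (continuous_const.sub continuous_id).continuousOn hmaps
  set A : ℝ → E →L[ℂ] E := fun z => (2 : ℝ) • κ - B (T - z) with hA
  set M : ℝ → E →L[ℂ] E := fun t => κ - (1 / 2 : ℝ) • A (projIcc 0 y hy.1 t) with hM
  have hMc : Continuous M := by
    have h1 : Continuous fun t => B (T - (projIcc 0 y hy.1 t : ℝ)) :=
      hDc.domRestrict.comp (continuous_projIcc (a := (0:ℝ)) (b := y) (h := hy.1))
    exact continuous_const.sub ((continuous_const.sub h1).const_smul (1 / 2 : ℝ))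
  have hAs : ∀ z ∈ Icc 0 y, IsSelfAdjoint (A z) := by
    intro z hz
    rw [isSelfAdjoint_iff]
    simp only [hA, star_sub, star_smul, star_trivial, hκ.star_eq, (hsa _ (hmaps hz)).star_eq]
  have hMs : ∀ t, IsSelfAdjoint (M t) := by
    intro t
    rw [isSelfAdjoint_iff]
    simp only [hM, star_sub, star_smul, star_trivial, hκ.star_eq,
      (hAs _ (projIcc 0 y hy.1 t).2).star_eq]
  have hMn : ∀ t, ‖M t‖ ≤ (⟨‖κ‖ + (‖κ‖ + τ), by positivity⟩ : ℝ≥0) := by
    intro t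
    change ‖κ - (1 / 2 : ℝ) • A (projIcc 0 y hy.1 t)‖ ≤ ‖κ‖ + (‖κ‖ + τ)
    have h1 := norm_sub_le κ ((1 / 2 : ℝ) • A (projIcc 0 y hy.1 t))
    have h2 : ‖(1 / 2 : ℝ) • A (projIcc 0 y hy.1 t)‖ ≤ ‖κ‖ + τ := by
      rw [norm_smul, Real.norm_of_nonneg (by norm_num)]
      have h3 : ‖A (projIcc 0 y hy.1 t)‖ ≤ ‖(2 : ℝ) • κ‖ + ‖B (T - (projIcc 0 y hy.1 t : ℝ))‖ :=
        norm_sub_le _ _
      have h4 := hn _ (projIcc 0 y hy.1 t).2
      rw [norm_smul, Real.norm_of_nonneg (by norm_num)] at h3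
      have := norm_nonneg κ
      nlinarith
    linarith
  have key := pos_ode (T := y) (B := A) (M := M) (W := fun z => V κ (T - z)) hMc hMn hMs
    (fun t _ v => hVp κ _ v) ?_ ?_ y ⟨hy.1, le_rfl⟩
  · intro v
    exact key v
  · intro z hz
    have h1 := hB (T - z) (hmaps hz)
    have h2 : HasDerivWithinAt (fun z => T - z) (-1) (Icc 0 y) z :=
      ((hasDerivAt_id z).const_sub T).hasDerivWithinAt
    have h3 := h1.scomp z h2 hmaps
    have h4 : HasDerivWithinAt A (-((-1 : ℝ) • fld τ V κ (T - z) (B (T - z)))) (Icc 0 y) z :=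
      h3.const_sub ((2 : ℝ) • κ)
    have hpt : A (projIcc 0 y hy.1 z) = A z := by
      rw [projIcc_of_mem hy.1 hz]
    have h5 : -((-1 : ℝ) • fld τ V κ (T - z) (B (T - z))) =
        V κ (T - z) - (M z * A z + A z * M z) := by
      have hsB : sap (B (T - z)) = B (T - z) := sap_of_sa (hsa _ (hmaps hz))
      have hsκ : sap κ = κ := sap_of_sa hκ
      unfold fld
      rw [hsB, hsκ, tru_of_le hτ (hn z hz)]
      simp only [hM, hpt]
      simp only [hA]
      simp only [mul_sub, sub_mul, smul_mul_assoc, mul_smul_comm, smul_smul, smul_sub]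
      module
    rw [h5] at h4
    exact h4
  · intro v
    simp only [hA, sub_zero, hBT, sub_self]
    simp

/-- **Vertex lemma** for operators on a finite dimensional Hilbert space. -/
theorem vertexO [FiniteDimensional ℂ E] {T v0 : ℝ} (hT : 0 < T)
    {V : (E →L[ℂ] E) → ℝ → E →L[ℂ] E}
    (hVc : Continuous fun p : (E →L[ℂ] E) × ℝ => V p.1 p.2)
    (hVs : ∀ κ t, IsSelfAdjoint (V κ t))
    (hVp : ∀ κ t v, 0 ≤ (⟪V κ t v, v⟫_ℂ).re)
    (hV0 : ∀ κ v, ‖v‖ = 1 → ∫ t in (0:ℝ)..T, (⟪V κ t v, v⟫_ℂ).re ≤ v0) :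
    ∃ (κ : E →L[ℂ] E) (F : ℝ → E →L[ℂ] E), IsSelfAdjoint κ ∧ (∀ v, 0 ≤ (⟪κ v, v⟫_ℂ).re) ∧
      F 0 = κ ∧ F T = -κ ∧
      (∀ t ∈ Icc 0 T, HasDerivWithinAt F (κ * κ - F t * F t - V κ t) (Icc 0 T) t) ∧
      ∀ t ∈ Icc 0 T, IsSelfAdjoint (F t) ∧ (∀ v, 0 ≤ (⟪(κ - F t) v, v⟫_ℂ).re) ∧
        ∀ v, 0 ≤ (⟪(κ + F t) v, v⟫_ℂ).re := by
  set τ : ℝ := |v0| + 1 with hτd
  have hτ : 0 < τ := by positivity
  have hv0τ : v0 < τ := by
    have := le_abs_self v0
    rw [hτd]
    linarith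
  obtain ⟨B, hB⟩ := exists_sol hτ hVc hT.le
  have hcont : Continuous fun κ => B κ T := sol_continuous hτ hVc hT.le hB
  have htc : Continuous (tru τ : (E →L[ℂ] E) → E →L[ℂ] E) := by
    have : LipschitzWith 2 (tru τ : (E →L[ℂ] E) → E →L[ℂ] E) := by
      refine LipschitzWith.of_dist_le_mul fun x y => ?_
      rw [dist_eq_norm, dist_eq_norm]
      exact tru_lip hτ x y
    exact this.continuous
  have hfin : FiniteDimensional ℝ (E →L[ℂ] E) := FiniteDimensional.complexToReal (E →L[ℂ] E)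
  obtain ⟨κ, hfix⟩ := exists_fixed (X := E →L[ℂ] E) (fun κ => (1 / 2 : ℝ) • tru τ (B κ T))
    ((htc.comp hcont).const_smul (1 / 2 : ℝ)) (τ / 2) (fun κ => by
      rw [norm_smul, Real.norm_of_nonneg (by norm_num)]
      have := norm_tru_le hτ (B κ T)
      linarith)
  have h0 := (hB κ).1
  have hd := (hB κ).2
  have hsa := sol_sa hVs h0 hd
  have hpos := sol_pos hτ hVs hVp hT.le h0 hd
  have hTm : T ∈ Icc 0 T := ⟨hT.le, le_rfl⟩
  have hm0 : 0 < max τ ‖B κ T‖ := lt_max_of_lt_left hτ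
  have hκsa : IsSelfAdjoint κ := by
    rw [← hfix, isSelfAdjoint_iff, star_smul, star_trivial, (tru_sa (hsa T hTm)).star_eq]
  have h2κ : tru τ (B κ T) = (2 : ℝ) • κ := by
    have h1 : (2 : ℝ) • ((1 / 2 : ℝ) • tru τ (B κ T)) = (2 : ℝ) • κ := by rw [hfix]
    rw [smul_smul] at h1
    norm_num at h1
    exact h1
  have hκp : ∀ v, 0 ≤ (⟪κ v, v⟫_ℂ).re := by
    intro v
    rw [← hfix, tru_eq_smul, smul_smul]
    have h1 : (((1 / 2 : ℝ) * (τ / max τ ‖B κ T‖)) • B κ T) v =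
        (((1 / 2 : ℝ) * (τ / max τ ‖B κ T‖) : ℝ) : ℂ) • (B κ T v) := by
      rw [smul_apply, Complex.coe_smul]
    rw [h1, inner_smul_left, Complex.conj_ofReal, Complex.re_ofReal_mul]
    have h2 := hpos T hTm v
    positivity
  have hκn : ‖κ‖ ≤ τ / 2 := by
    rw [← hfix, norm_smul, Real.norm_of_nonneg (by norm_num)]
    have := norm_tru_le hτ (B κ T)
    linarith
  -- strict bound
  have hκlt : ‖κ‖ < τ / 2 := by
    rcases lt_or_eq_of_le hκn with h | heq
    · exact h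
    exfalso
    have hc : 0 < ‖κ‖ := by rw [heq]; positivity
    obtain ⟨v, hv1, hv⟩ := exists_top hκsa hκp hc
    rw [heq] at hv
    have hsymκ : ∀ x y, ⟪κ x, y⟫_ℂ = ⟪x, κ y⟫_ℂ := by
      intro x y
      have h8 := ContinuousLinearMap.adjoint_inner_left κ y x
      have h9 : ContinuousLinearMap.adjoint κ = κ := hκsa
      rw [h9] at h8
      exact h8
    have hVv : Continuous fun t => (⟪V κ t v, v⟫_ℂ).re := by
      have h1 : Continuous fun t => V κ t :=
        hVc.comp (Continuous.prodMk continuous_const continuous_id)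
      have h2 : Continuous fun t => V κ t v := (ContinuousLinearMap.apply ℂ E v).continuous.comp h1
      exact Complex.continuous_re.comp (h2.inner continuous_const)
    set b : ℝ → ℝ := fun t => (⟪B κ t v, v⟫_ℂ).re with hb
    set h : ℝ → ℝ := fun t => b t - ∫ s in (0:ℝ)..t, (⟪V κ s v, v⟫_ℂ).re with hh
    have hbd : ∀ t ∈ Icc 0 T, HasDerivWithinAt b ((⟪fld τ V κ t (B κ t) v, v⟫_ℂ).re) (Icc 0 T) t := by
      intro t ht
      let L : (E →L[ℂ] E) →L[ℝ] ℝ := Complex.reCLM ∘L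
        ((innerSL ℂ v).restrictScalars ℝ ∘L ((ContinuousLinearMap.apply ℂ E v).restrictScalars ℝ))
      have hL : ∀ C : E →L[ℂ] E, L C = (⟪C v, v⟫_ℂ).re := by
        intro C
        change (⟪v, C v⟫_ℂ).re = _
        rw [← inner_conj_symm, Complex.conj_re]
      have h1 := L.hasFDerivAt.comp_hasDerivWithinAt t (hd t ht)
      have h2 : (L ∘ B κ) = b := by
        funext s
        exact hL _
      rw [h2, hL] at h1
      exact h1
    have hhd : ∀ t ∈ Icc 0 T, HasDerivWithinAt h ((⟪fld τ V κ t (B κ t) v, v⟫_ℂ).re -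
        (⟪V κ t v, v⟫_ℂ).re) (Icc 0 T) t := by
      intro t ht
      exact (hbd t ht).sub ((hVv.integral_hasStrictDerivAt 0 t).hasDerivAt.hasDerivWithinAt)
    have hle : ∀ t ∈ Icc 0 T, (⟪fld τ V κ t (B κ t) v, v⟫_ℂ).re - (⟪V κ t v, v⟫_ℂ).re ≤ 0 := by
      intro t ht
      have hsB : sap (B κ t) = B κ t := sap_of_sa (hsa t ht)
      have hsκ : sap κ = κ := sap_of_sa hκsa
      set Q := tru τ (B κ t) with hQ
      have hQs : IsSelfAdjoint Q := tru_sa (hsa t ht)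
      have hQn : ‖Q‖ ≤ τ := norm_tru_le hτ _
      have hQp : ∀ v, 0 ≤ (⟪Q v, v⟫_ℂ).re := by
        intro v
        have h1 : Q v = ((τ / max τ ‖B κ t‖ : ℝ) : ℂ) • (B κ t v) := by
          rw [hQ, tru_eq_smul, smul_apply, Complex.coe_smul]
        rw [h1, inner_smul_left, Complex.conj_ofReal, Complex.re_ofReal_mul]
        have h2 := hpos t ht v
        have h3 : 0 < max τ ‖B κ t‖ := lt_max_of_lt_left hτ
        positivity
      have h1 := sq_le hτ hQs hQp hQn v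
      have h2 : (⟪fld τ V κ t (B κ t) v, v⟫_ℂ).re = (⟪V κ t v, v⟫_ℂ).re -
          (⟪κ (Q v), v⟫_ℂ).re - (⟪Q (κ v), v⟫_ℂ).re + (⟪Q (Q v), v⟫_ℂ).re := by
        have hmul : ∀ (P R : E →L[ℂ] E) (z : E), (P * R) z = P (R z) := fun _ _ _ => rfl
        unfold fld
        rw [hsB, hsκ, ← hQ]
        simp only [add_apply, sub_apply, hmul, inner_add_left, inner_sub_left, Complex.add_re,
          Complex.sub_re]
        ring
      have h3 : (⟪κ (Q v), v⟫_ℂ).re = τ / 2 * (⟪Q v, v⟫_ℂ).re := by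
        rw [hsymκ, hv, inner_smul_right, Complex.re_ofReal_mul]
      have h4 : (⟪Q (κ v), v⟫_ℂ).re = τ / 2 * (⟪Q v, v⟫_ℂ).re := by
        rw [hv, map_smul, inner_smul_left, Complex.conj_ofReal, Complex.re_ofReal_mul]
      rw [h2, h3, h4]
      linarith
    have hanti : AntitoneOn h (Icc 0 T) := by
      apply antitoneOn_of_hasDerivWithinAt_nonpos (convex_Icc 0 T)
        (fun t ht => (hhd t ht).continuousWithinAt)
        (fun t ht => (hhd t (interior_subset ht)).mono interior_subset)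
      intro t ht
      exact hle t (interior_subset ht)
    have h1 := hanti (left_mem_Icc.mpr hT.le) (right_mem_Icc.mpr hT.le) hT.le
    simp only [hh, hb, h0, intervalIntegral.integral_same, sub_zero] at h1
    have h2 : (⟪(0 : E →L[ℂ] E) v, v⟫_ℂ).re = 0 := by simp
    rw [h2] at h1
    have h3 := hV0 κ v hv1
    -- `⟨v, B(T) v⟩ ≥ τ`
    have h4 : (max τ ‖B κ T‖ / τ * 2) • κ = B κ T := by
      have h5 : (max τ ‖B κ T‖ / τ) • tru τ (B κ T) = B κ T := by
        rw [tru_eq_smul, smul_smul]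
        have : max τ ‖B κ T‖ / τ * (τ / max τ ‖B κ T‖) = 1 := by
          field_simp
        rw [this, one_smul]
      rw [h2κ, smul_smul] at h5
      exact h5
    have hvv : (⟪v, v⟫_ℂ).re = 1 := by
      have : (⟪v, v⟫_ℂ).re = ‖v‖ ^ 2 := by
        rw [← inner_self_eq_norm_sq (𝕜 := ℂ) v]
        rfl
      rw [this, hv1, one_pow]
    have hκv : (⟪κ v, v⟫_ℂ).re = τ / 2 := by
      rw [hv, inner_smul_left, Complex.conj_ofReal, Complex.re_ofReal_mul, hvv, mul_one]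
    have h5 : (⟪B κ T v, v⟫_ℂ).re = max τ ‖B κ T‖ := by
      have h6 : B κ T v = ((max τ ‖B κ T‖ / τ * 2 : ℝ) : ℂ) • κ v := by
        have h7 := congrArg (fun C : E →L[ℂ] E => C v) h4
        simp only [smul_apply] at h7
        rw [← h7, Complex.coe_smul]
      rw [h6, inner_smul_left, Complex.conj_ofReal, Complex.re_ofReal_mul, hκv]
      field_simp
    have h6 : τ ≤ max τ ‖B κ T‖ := le_max_left _ _
    linarith
  -- no truncation at `T`
  have hBTn : ‖B κ T‖ < τ := by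
    by_contra hcon
    push Not at hcon
    have h1 : ‖tru τ (B κ T)‖ = τ := by
      rw [tru_eq_smul, max_eq_right hcon, norm_smul, Real.norm_of_nonneg (by positivity)]
      have : 0 < ‖B κ T‖ := lt_of_lt_of_le hτ hcon
      field_simp
    rw [h2κ, norm_smul, Real.norm_of_nonneg (by norm_num)] at h1
    linarith
  have hBT : B κ T = (2 : ℝ) • κ := by
    rw [← h2κ, tru_of_le hτ hBTn.le]
  -- bound by the backward argument
  have hbound : ∀ y ∈ Icc 0 T, (∀ z ∈ Icc 0 y, ‖B κ (T - z)‖ ≤ τ) → ‖B κ (T - y)‖ ≤ 2 * ‖κ‖ := by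
    intro y hy hn
    have h1 := back_pos hτ hVs hVp hκsa h0 hd hBT hy hn
    have hmem : T - y ∈ Icc 0 T := ⟨by linarith [hy.2], by linarith [hy.1]⟩
    have h2κs : IsSelfAdjoint ((2 : ℝ) • κ) := by
      rw [isSelfAdjoint_iff, star_smul, star_trivial, hκsa.star_eq]
    have h2 := norm_mono (hsa _ hmem) h2κs (hpos _ hmem) h1
    rwa [norm_smul, Real.norm_of_nonneg (by norm_num)] at h2
  have hBc : ContinuousOn (B κ) (Icc 0 T) := fun s hs => (hd s hs).continuousWithinAt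
  have hnc : ContinuousOn (fun z => ‖B κ (T - z)‖) (Icc 0 T) := by
    have hmaps : MapsTo (fun z => T - z) (Icc 0 T) (Icc 0 T) := fun z hz =>
      ⟨by linarith [hz.2], by linarith [hz.1]⟩
    exact (hBc.comp (continuous_const.sub continuous_id).continuousOn hmaps).norm
  have hall : ∀ z ∈ Icc 0 T, ‖B κ (T - z)‖ < τ := by
    by_contra hcon
    push Not at hcon
    obtain ⟨z0, hz0, hz0τ⟩ := hcon
    set Z : Set ℝ := {z ∈ Icc 0 T | τ ≤ ‖B κ (T - z)‖} with hZ
    have hZc : IsCompact Z := by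
      have h1 : IsClosed Z := hnc.preimage_isClosed_of_isClosed isClosed_Icc isClosed_Ici
      exact isCompact_Icc.of_isClosed_subset h1 (fun z hz => hz.1)
    obtain ⟨y, hyZ, hymin⟩ := hZc.exists_isLeast ⟨z0, hz0, hz0τ⟩
    have hylt : ∀ z ∈ Ico 0 y, ‖B κ (T - z)‖ < τ := by
      intro z hz
      by_contra hc
      push Not at hc
      have := hymin (show z ∈ Z from ⟨⟨hz.1, hz.2.le.trans hyZ.1.2⟩, hc⟩)
      exact absurd hz.2 (not_lt.mpr this)
    have hy0 : 0 < y := by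
      rcases lt_or_eq_of_le hyZ.1.1 with h | h
      · exact h
      · exfalso
        have h1 := hyZ.2
        rw [← h, sub_zero] at h1
        linarith
    have hle : ∀ z ∈ Ico 0 y, ‖B κ (T - z)‖ ≤ 2 * ‖κ‖ := by
      intro z hz
      apply hbound z ⟨hz.1, hz.2.le.trans hyZ.1.2⟩
      intro w hw
      exact (hylt w ⟨hw.1, lt_of_le_of_lt hw.2 hz.2⟩).le
    have hcl : y ∈ closure (Ico 0 y) := by
      rw [closure_Ico hy0.ne]
      exact ⟨hy0.le, le_rfl⟩
    have h1 : ‖B κ (T - y)‖ ≤ 2 * ‖κ‖ :=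
      ContinuousWithinAt.closure_le hcl
        ((hnc y hyZ.1).mono (fun z hz => ⟨hz.1, hz.2.le.trans hyZ.1.2⟩))
        continuousWithinAt_const hle
    have h2 := hyZ.2
    linarith
  -- conclusion
  have hBτ : ∀ t ∈ Icc 0 T, ‖B κ t‖ ≤ τ := by
    intro t ht
    have := hall (T - t) ⟨by linarith [ht.2], by linarith [ht.1]⟩
    rw [sub_sub_cancel] at this
    exact this.le
  have hup : ∀ t ∈ Icc 0 T, ∀ v, 0 ≤ (⟪((2 : ℝ) • κ - B κ t) v, v⟫_ℂ).re := by
    intro t ht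
    have hy : T - t ∈ Icc 0 T := ⟨by linarith [ht.2], by linarith [ht.1]⟩
    have h1 := back_pos hτ hVs hVp hκsa h0 hd hBT hy (fun z hz =>
      (hall z ⟨hz.1, hz.2.trans hy.2⟩).le)
    rw [sub_sub_cancel] at h1
    exact h1
  refine ⟨κ, fun t => κ - B κ t, hκsa, hκp, ?_, ?_, ?_, ?_⟩
  · simp only [h0, sub_zero]
  · simp only [hBT]
    module
  · intro t ht
    have h1 := (hd t ht).const_sub κ
    have h2 : -(fld τ V κ t (B κ t)) = κ * κ - (κ - B κ t) * (κ - B κ t) - V κ t := by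
      have hsB : sap (B κ t) = B κ t := sap_of_sa (hsa t ht)
      have hsκ : sap κ = κ := sap_of_sa hκsa
      unfold fld
      rw [hsB, hsκ, tru_of_le hτ (hBτ t ht)]
      noncomm_ring
    rw [h2] at h1
    exact h1
  · intro t ht
    refine ⟨hκsa.sub (hsa t ht), ?_, ?_⟩
    · intro v
      rw [sub_sub_cancel]
      exact hpos t ht v
    · intro v
      have h1 := hup t ht v
      have h2 : κ + (κ - B κ t) = (2 : ℝ) • κ - B κ t := by module
      rw [h2]
      exact h1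

end Pool.Agent.LTV
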