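import Pool.Agent.LTV.Pos

/-!
# Vertex lemma for matrix Riccati equations (MP_4c716f_mp), part 4: the truncated Riccati equation
-/

set_option autoImplicit false

namespace Pool.Agent.LTV

open Set Metric
open scoped NNReal Topology InnerProductSpace

variable {E : Type*} [NormedAddCommGroup E] [InnerProductSpace ℂ E] [CompleteSpace E]

/-- self-adjoint part -/
noncomputable def sap (B : E →L[ℂ] E) : E →L[ℂ] E := (1 / 2 : ℝ) • (B + star B)

lemma sap_sa (B : E →L[ℂ] E) : IsSelfAdjoint (sap B) := by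
  unfold sap
  rw [isSelfAdjoint_iff, star_smul, star_add, star_star, add_comm, star_trivial]

lemma sap_of_sa {B : E →L[ℂ] E} (h : IsSelfAdjoint B) : sap B = B := by
  unfold sap
  rw [h.star_eq, ← two_smul ℝ B, smul_smul]
  norm_num

lemma sap_sub (B C : E →L[ℂ] E) : sap B - sap C = sap (B - C) := by
  unfold sap
  rw [← smul_sub, star_sub]
  congr 1
  abel

lemma norm_sap_le (B : E →L[ℂ] E) : ‖sap B‖ ≤ ‖B‖ := by
  unfold sap
  rw [norm_smul, Real.norm_of_nonneg (by norm_num)]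
  have h := norm_add_le B (star B)
  rw [norm_star] at h
  linarith

lemma continuous_sap : Continuous (sap : (E →L[ℂ] E) → E →L[ℂ] E) := by
  have h1 : Continuous fun B : E →L[ℂ] E => B + star B := by fun_prop
  have h : Continuous fun B : E →L[ℂ] E => (1 / 2 : ℝ) • (B + star B) := by fun_prop
  exact h

lemma tru_sa {τ : ℝ} {B : E →L[ℂ] E} (h : IsSelfAdjoint B) : IsSelfAdjoint (tru τ B) := by
  unfold tru
  rw [isSelfAdjoint_iff, star_smul, h.star_eq, star_trivial]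

/-- the truncated Riccati vector field -/
noncomputable def fld (τ : ℝ) (V : (E →L[ℂ] E) → ℝ → E →L[ℂ] E) (κ : E →L[ℂ] E) (t : ℝ)
    (B : E →L[ℂ] E) : E →L[ℂ] E :=
  V κ t - (sap κ * tru τ (sap B) + tru τ (sap B) * sap κ) + tru τ (sap B) * tru τ (sap B)

lemma fld_lip {τ : ℝ} (hτ : 0 < τ) (V : (E →L[ℂ] E) → ℝ → E →L[ℂ] E) (κ : E →L[ℂ] E) (t : ℝ)
    (B C : E →L[ℂ] E) : ‖fld τ V κ t B - fld τ V κ t C‖ ≤ (4 * ‖κ‖ + 4 * τ) * ‖B - C‖ := by
  set P := tru τ (sap B) with hP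
  set Q := tru τ (sap C) with hQ
  have hPQ : ‖P - Q‖ ≤ 2 * ‖B - C‖ := by
    calc ‖P - Q‖ ≤ 2 * ‖sap B - sap C‖ := tru_lip hτ _ _
      _ ≤ 2 * ‖B - C‖ := by
        rw [sap_sub]
        have := norm_sap_le (B - C)
        linarith
  have hPn : ‖P‖ ≤ τ := norm_tru_le hτ _
  have hQn : ‖Q‖ ≤ τ := norm_tru_le hτ _
  have hκ : ‖sap κ‖ ≤ ‖κ‖ := norm_sap_le κ
  have e : fld τ V κ t B - fld τ V κ t C =
      -(sap κ * (P - Q)) + -((P - Q) * sap κ) + (P * (P - Q) + (P - Q) * Q) := by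
    unfold fld
    rw [← hP, ← hQ]
    noncomm_ring
  rw [e]
  have h1 : ‖-(sap κ * (P - Q))‖ ≤ ‖κ‖ * (2 * ‖B - C‖) := by
    rw [norm_neg]
    exact (norm_mul_le _ _).trans (mul_le_mul hκ hPQ (norm_nonneg _) (norm_nonneg _))
  have h2 : ‖-((P - Q) * sap κ)‖ ≤ ‖κ‖ * (2 * ‖B - C‖) := by
    rw [norm_neg, mul_comm ‖κ‖]
    exact (norm_mul_le _ _).trans (mul_le_mul hPQ hκ (norm_nonneg _) (by positivity))
  have h3 : ‖P * (P - Q)‖ ≤ τ * (2 * ‖B - C‖) :=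
    (norm_mul_le _ _).trans (mul_le_mul hPn hPQ (norm_nonneg _) hτ.le)
  have h4 : ‖(P - Q) * Q‖ ≤ τ * (2 * ‖B - C‖) := by
    rw [mul_comm τ]
    exact (norm_mul_le _ _).trans (mul_le_mul hPQ hQn (norm_nonneg _) (by positivity))
  have h5 := norm_add_le (-(sap κ * (P - Q)) + -((P - Q) * sap κ)) (P * (P - Q) + (P - Q) * Q)
  have h6 := norm_add_le (-(sap κ * (P - Q))) (-((P - Q) * sap κ))
  have h7 := norm_add_le (P * (P - Q)) ((P - Q) * Q)
  linarith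

lemma fld_diff {τ : ℝ} (hτ : 0 < τ) (V : (E →L[ℂ] E) → ℝ → E →L[ℂ] E) (κ κ' : E →L[ℂ] E) (t : ℝ)
    (B : E →L[ℂ] E) : ‖fld τ V κ t B - fld τ V κ' t B‖ ≤ ‖V κ t - V κ' t‖ + 2 * τ * ‖κ - κ'‖ := by
  set P := tru τ (sap B) with hP
  have hPn : ‖P‖ ≤ τ := norm_tru_le hτ _
  have hκ : ‖sap κ - sap κ'‖ ≤ ‖κ - κ'‖ := by
    rw [sap_sub]
    exact norm_sap_le _
  have e : fld τ V κ t B - fld τ V κ' t B =
      (V κ t - V κ' t) + -((sap κ - sap κ') * P + P * (sap κ - sap κ')) := by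
    unfold fld
    rw [← hP]
    noncomm_ring
  rw [e]
  have h1 : ‖(sap κ - sap κ') * P‖ ≤ ‖κ - κ'‖ * τ :=
    (norm_mul_le _ _).trans (mul_le_mul hκ hPn (norm_nonneg _) (norm_nonneg _))
  have h2 : ‖P * (sap κ - sap κ')‖ ≤ τ * ‖κ - κ'‖ :=
    (norm_mul_le _ _).trans (mul_le_mul hPn hκ (norm_nonneg _) hτ.le)
  have h3 := norm_add_le (V κ t - V κ' t) (-((sap κ - sap κ') * P + P * (sap κ - sap κ')))
  rw [norm_neg] at h3
  have h4 := norm_add_le ((sap κ - sap κ') * P) (P * (sap κ - sap κ'))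
  linarith

lemma fld_sa {τ : ℝ} {V : (E →L[ℂ] E) → ℝ → E →L[ℂ] E} (hV : ∀ κ t, IsSelfAdjoint (V κ t))
    (κ : E →L[ℂ] E) (t : ℝ) (B : E →L[ℂ] E) : IsSelfAdjoint (fld τ V κ t B) := by
  have hP : IsSelfAdjoint (tru τ (sap B)) := tru_sa (sap_sa B)
  have hκ := sap_sa κ
  unfold fld
  rw [isSelfAdjoint_iff]
  simp only [star_add, star_sub, star_mul, (hV κ t).star_eq, hP.star_eq, hκ.star_eq]
  abel

/-- existence of the solutions of the truncated Riccati equation -/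
theorem exists_sol {τ : ℝ} (hτ : 0 < τ) {V : (E →L[ℂ] E) → ℝ → E →L[ℂ] E}
    (hVc : Continuous fun p : (E →L[ℂ] E) × ℝ => V p.1 p.2) {T : ℝ} (hT : 0 ≤ T) :
    ∃ B : (E →L[ℂ] E) → ℝ → E →L[ℂ] E, ∀ κ, B κ 0 = 0 ∧
      ∀ t ∈ Icc 0 T, HasDerivWithinAt (B κ) (fld τ V κ t (B κ t)) (Icc 0 T) t := by
  have h : ∀ κ : E →L[ℂ] E, ∃ B : ℝ → E →L[ℂ] E, B 0 = 0 ∧
      ∀ t ∈ Icc 0 T, HasDerivWithinAt B (fld τ V κ t (B t)) (Icc 0 T) t := by
    intro κ
    have hK0 : 0 ≤ 4 * ‖κ‖ + 4 * τ := by positivity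
    obtain ⟨K, hK⟩ : ∃ K : ℝ≥0, (K : ℝ) = 4 * ‖κ‖ + 4 * τ :=
      ⟨(4 * ‖κ‖ + 4 * τ).toNNReal, Real.coe_toNNReal _ hK0⟩
    refine exists_global (fld τ V κ) K ?_ ?_ T hT 0
    · intro t
      refine LipschitzWith.of_dist_le_mul fun B C => ?_
      rw [dist_eq_norm, dist_eq_norm, hK]
      exact fld_lip hτ V κ t B C
    · intro B
      unfold fld
      have h1 : Continuous fun t => V κ t := hVc.comp (Continuous.prodMk continuous_const continuous_id)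
      exact (h1.sub continuous_const).add continuous_const
  choose B hB using h
  exact ⟨B, hB⟩

/-- derivatives within `[0, T]` give right derivatives -/
lemma rightDeriv {X : Type*} [NormedAddCommGroup X] [NormedSpace ℝ X] {f : ℝ → X} {f' : X} {T t : ℝ}
    (h : HasDerivWithinAt f f' (Icc 0 T) t) (ht : t ∈ Ico 0 T) : HasDerivWithinAt f f' (Ici t) t := by
  apply h.mono_of_mem_nhdsWithin
  have : Icc t T ∈ 𝓝[≥] t := Icc_mem_nhdsGE ht.2
  exact Filter.mem_of_superset this (Icc_subset_Icc_left ht.1)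

/-- continuous dependence on the parameter -/
theorem sol_continuous [FiniteDimensional ℂ E] {τ : ℝ} (hτ : 0 < τ)
    {V : (E →L[ℂ] E) → ℝ → E →L[ℂ] E}
    (hVc : Continuous fun p : (E →L[ℂ] E) × ℝ => V p.1 p.2) {T : ℝ} (hT : 0 ≤ T)
    {B : (E →L[ℂ] E) → ℝ → E →L[ℂ] E} (hB : ∀ κ, B κ 0 = 0 ∧
      ∀ t ∈ Icc 0 T, HasDerivWithinAt (B κ) (fld τ V κ t (B κ t)) (Icc 0 T) t) :
    Continuous fun κ => B κ T := by
  rw [continuous_iff_continuousAt]
  intro κ₀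
  have : ProperSpace (E →L[ℂ] E) := FiniteDimensional.proper ℂ (E →L[ℂ] E)
  have hK0 : 0 ≤ 4 * ‖κ₀‖ + 4 * τ := by positivity
  obtain ⟨K, hK⟩ : ∃ K : ℝ≥0, (K : ℝ) = 4 * ‖κ₀‖ + 4 * τ :=
    ⟨(4 * ‖κ₀‖ + 4 * τ).toNNReal, Real.coe_toNNReal _ hK0⟩
  have hlip : ∀ t, LipschitzWith K (fld τ V κ₀ t) := by
    intro t
    refine LipschitzWith.of_dist_le_mul fun B C => ?_
    rw [dist_eq_norm, dist_eq_norm, hK]
    exact fld_lip hτ V κ₀ t B C
  -- uniform closeness of the potentials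
  have hunif : TendstoUniformly (fun (κ : E →L[ℂ] E) (t : Icc (0:ℝ) T) => V κ t)
      (fun t : Icc (0:ℝ) T => V κ₀ t) (𝓝 κ₀) := by
    apply Continuous.tendstoUniformly (f := fun (κ : E →L[ℂ] E) (t : Icc (0:ℝ) T) => V κ t)
    exact hVc.comp (Continuous.prodMk continuous_fst (continuous_subtype_val.comp continuous_snd))
  rw [Metric.tendstoUniformly_iff] at hunif
  rw [ContinuousAt, Metric.tendsto_nhds]
  intro ε hε
  -- choose the error
  have hg : ContinuousAt (fun e : ℝ => gronwallBound 0 K e T) 0 :=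
    (gronwallBound_continuous_ε 0 K T).continuousAt
  have hg0 : gronwallBound 0 (K : ℝ) 0 T = 0 := gronwallBound_ε0_δ0 _ _
  have hev : ∀ᶠ e : ℝ in 𝓝 0, gronwallBound 0 K e T < ε := by
    have h1 : gronwallBound 0 (K : ℝ) 0 T < ε := by rw [hg0]; exact hε
    exact hg.eventually_lt continuousAt_const h1
  obtain ⟨e, he, hball⟩ := Metric.eventually_nhds_iff.mp hev
  have he2 : gronwallBound 0 K (e / 2) T < ε := by
    apply hball
    rw [Real.dist_eq, sub_zero, abs_of_pos (by positivity)]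
    linarith
  have h1 := hunif (e / 4) (by positivity)
  have h2 : ∀ᶠ κ : E →L[ℂ] E in 𝓝 κ₀, 2 * τ * ‖κ - κ₀‖ < e / 4 := by
    have h3 : ContinuousAt (fun κ : E →L[ℂ] E => 2 * τ * ‖κ - κ₀‖) κ₀ := by fun_prop
    have h4 : 2 * τ * ‖κ₀ - κ₀‖ < e / 4 := by simp; positivity
    exact h3.eventually_lt continuousAt_const h4
  filter_upwards [h1, h2] with κ hκ1 hκ2
  have hcont : ∀ κ, ContinuousOn (B κ) (Icc 0 T) := fun κ t ht =>
    ((hB κ).2 t ht).continuousWithinAt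
  have hmain := dist_le_of_approx_trajectories_ODE (a := 0) (b := T) (K := K) (v := fld τ V κ₀)
    (f := B κ) (g := B κ₀) (f' := fun t => fld τ V κ t (B κ t))
    (g' := fun t => fld τ V κ₀ t (B κ₀ t)) (εf := e / 2) (εg := 0) (δ := 0) hlip (hcont κ)
    (fun t ht => rightDeriv ((hB κ).2 t ⟨ht.1, ht.2.le⟩) ht)
    (fun t ht => by
      rw [dist_eq_norm]
      have h5 := fld_diff hτ V κ κ₀ t (B κ t)
      have h6 := hκ1 ⟨t, ht.1, ht.2.le⟩
      rw [dist_eq_norm, norm_sub_rev] at h6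
      linarith)
    (hcont κ₀) (fun t ht => rightDeriv ((hB κ₀).2 t ⟨ht.1, ht.2.le⟩) ht)
    (fun t _ => by rw [dist_self]) (by rw [(hB κ).1, (hB κ₀).1, dist_self]) T ⟨hT, le_rfl⟩
  rw [add_zero, sub_zero] at hmain
  exact hmain.trans_lt he2

/-- the solutions are self-adjoint -/
theorem sol_sa {τ : ℝ} {V : (E →L[ℂ] E) → ℝ → E →L[ℂ] E} (hVs : ∀ κ t, IsSelfAdjoint (V κ t))
    {T : ℝ} {κ : E →L[ℂ] E} {B : ℝ → E →L[ℂ] E} (h0 : B 0 = 0)
    (hB : ∀ t ∈ Icc 0 T, HasDerivWithinAt B (fld τ V κ t (B t)) (Icc 0 T) t) :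
    ∀ t ∈ Icc 0 T, IsSelfAdjoint (B t) := by
  intro t ht
  have hd : ∀ s ∈ Icc 0 T, HasDerivWithinAt (fun s => B s - star (B s)) 0 (Icc 0 T) s := by
    intro s hs
    have h1 := hB s hs
    have h2 := h1.sub h1.star
    rw [(fld_sa hVs κ s (B s)).star_eq, sub_self] at h2
    exact h2
  have hc : ContinuousOn (fun s => B s - star (B s)) (Icc 0 T) := fun s hs =>
    (hd s hs).continuousWithinAt
  have h3 := constant_of_has_deriv_right_zero hc (fun s hs => rightDeriv (hd s ⟨hs.1, hs.2.le⟩) hs) t ht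
  simp only [h0, star_zero, sub_self] at h3
  rw [isSelfAdjoint_iff]
  exact (sub_eq_zero.mp h3).symm

end Pool.Agent.LTV
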