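import Mathlib

/-!
# Vertex lemma for matrix Riccati equations (MP_4c716f_mp), part 1: truncation and global existence
-/

set_option autoImplicit false

namespace Pool.Agent.LTV

open Set Metric
open scoped NNReal Topology

section trunc

variable {E : Type*} [NormedAddCommGroup E] [NormedSpace ℝ E]

/-- radial truncation at level `τ` -/
noncomputable def tru (τ : ℝ) (B : E) : E := (τ / max τ ‖B‖) • B

lemma tru_of_le {τ : ℝ} (hτ : 0 < τ) {B : E} (h : ‖B‖ ≤ τ) : tru τ B = B := by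
  unfold tru
  rw [max_eq_left h, div_self hτ.ne', one_smul]

lemma norm_tru_le {τ : ℝ} (hτ : 0 < τ) (B : E) : ‖tru τ B‖ ≤ τ := by
  have hm : 0 < max τ ‖B‖ := lt_max_of_lt_left hτ
  unfold tru
  rw [norm_smul, Real.norm_of_nonneg (by positivity), div_mul_eq_mul_div, div_le_iff₀ hm]
  exact mul_le_mul_of_nonneg_left (le_max_right _ _) hτ.le

lemma norm_tru_le' {τ : ℝ} (hτ : 0 < τ) (B : E) : ‖tru τ B‖ ≤ ‖B‖ := by
  have hm : 0 < max τ ‖B‖ := lt_max_of_lt_left hτ
  unfold tru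
  rw [norm_smul, Real.norm_of_nonneg (by positivity), div_mul_eq_mul_div, div_le_iff₀ hm, mul_comm]
  exact mul_le_mul_of_nonneg_left (le_max_left _ _) (norm_nonneg _)

lemma tru_lip {τ : ℝ} (hτ : 0 < τ) (B C : E) : ‖tru τ B - tru τ C‖ ≤ 2 * ‖B - C‖ := by
  have hb : 0 < max τ ‖B‖ := lt_max_of_lt_left hτ
  have hc : 0 < max τ ‖C‖ := lt_max_of_lt_left hτ
  set b := max τ ‖B‖ with hbd
  set c := max τ ‖C‖ with hcd
  have e1 : tru τ B - tru τ C = (τ / b) • (B - C) + (τ / b - τ / c) • C := by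
    unfold tru
    rw [← hbd, ← hcd, smul_sub, sub_smul]
    abel
  have h1 : ‖(τ / b) • (B - C)‖ ≤ ‖B - C‖ := by
    rw [norm_smul, Real.norm_of_nonneg (by positivity)]
    have : τ / b ≤ 1 := by
      rw [div_le_one hb]
      exact le_max_left _ _
    calc τ / b * ‖B - C‖ ≤ 1 * ‖B - C‖ := mul_le_mul_of_nonneg_right this (norm_nonneg _)
      _ = ‖B - C‖ := one_mul _
  have h2 : ‖(τ / b - τ / c) • C‖ ≤ ‖B - C‖ := by
    rw [norm_smul]
    have e2 : τ / b - τ / c = (τ / b) * ((c - b) / c) := by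
      field_simp
    have h3 : |c - b| ≤ ‖B - C‖ := by
      calc |c - b| ≤ |‖C‖ - ‖B‖| := by
            rw [hcd, hbd]
            have := abs_max_sub_max_le_abs ‖C‖ ‖B‖ τ
            rwa [max_comm ‖C‖ τ, max_comm ‖B‖ τ] at this
        _ ≤ ‖C - B‖ := abs_norm_sub_norm_le _ _
        _ = ‖B - C‖ := norm_sub_rev _ _
    rw [e2, norm_mul, Real.norm_of_nonneg (by positivity : (0:ℝ) ≤ τ / b), Real.norm_eq_abs, abs_div,
      abs_of_pos hc]
    have h4 : τ / b ≤ 1 := by
      rw [div_le_one hb]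
      exact le_max_left _ _
    have h5 : ‖C‖ / c ≤ 1 := by
      rw [div_le_one hc]
      exact le_max_right _ _
    calc τ / b * (|c - b| / c) * ‖C‖ = (τ / b) * (‖C‖ / c) * |c - b| := by ring
      _ ≤ 1 * 1 * |c - b| := by gcongr
      _ ≤ ‖B - C‖ := by linarith
  calc ‖tru τ B - tru τ C‖ ≤ ‖(τ / b) • (B - C)‖ + ‖(τ / b - τ / c) • C‖ := by
        rw [e1]; exact norm_add_le _ _
    _ ≤ 2 * ‖B - C‖ := by linarith

end trunc

section ode

variable {X : Type*} [NormedAddCommGroup X] [NormedSpace ℝ X] [CompleteSpace X]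

/-- Global existence on `[0, T]` for a globally Lipschitz vector field. -/
theorem exists_global (f : ℝ → X → X) (K : ℝ≥0) (hK : ∀ t, LipschitzWith K (f t))
    (hf : ∀ x, Continuous fun t => f t x) (T : ℝ) (hT : 0 ≤ T) (x0 : X) :
    ∃ α : ℝ → X, α 0 = x0 ∧ ∀ t ∈ Icc 0 T, HasDerivWithinAt α (f t (α t)) (Icc 0 T) t := by
  -- bound of `f t x0`
  obtain ⟨C, hC⟩ : ∃ C : ℝ, ∀ t ∈ Icc 0 T, ‖f t x0‖ ≤ C := by
    obtain ⟨C, hC⟩ := (isCompact_Icc (a := (0:ℝ)) (b := T)).exists_bound_of_continuousOn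
      (hf x0).continuousOn
    exact ⟨C, hC⟩
  have hC0 : 0 ≤ C := (norm_nonneg _).trans (hC 0 ⟨le_rfl, hT⟩)
  set R : ℝ := gronwallBound 0 K C T + 1 with hR
  have hg0 : 0 ≤ gronwallBound 0 K C T := by
    have := gronwallBound_mono (δ := 0) (ε := C) (K := (K : ℝ)) le_rfl hC0 K.2 hT
    rwa [gronwallBound_x0] at this
  have hR0 : 0 < R := by rw [hR]; linarith
  set g : ℝ → X → X := fun t x => f t (x0 + tru R (x - x0)) with hg
  have hgL : ∀ t, LipschitzWith (K * 2) (g t) := by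
    intro t
    refine (hK t).comp ?_
    refine LipschitzWith.of_dist_le_mul fun x y => ?_
    rw [dist_eq_norm, dist_eq_norm]
    have h1 : x0 + tru R (x - x0) - (x0 + tru R (y - x0)) = tru R (x - x0) - tru R (y - x0) := by
      abel
    rw [h1]
    have h2 := tru_lip hR0 (x - x0) (y - x0)
    have h3 : x - x0 - (y - x0) = x - y := by abel
    rw [h3] at h2
    simpa using h2
  have hgb : ∀ t ∈ Icc 0 T, ∀ x, ‖g t x‖ ≤ C + K * ‖tru R (x - x0)‖ := by
    intro t ht x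
    have h1 := (hK t).norm_sub_le (x0 + tru R (x - x0)) x0
    have h2 : x0 + tru R (x - x0) - x0 = tru R (x - x0) := by abel
    rw [h2] at h1
    calc ‖g t x‖ = ‖f t x0 + (f t (x0 + tru R (x - x0)) - f t x0)‖ := by
          simp only [hg]; congr 1; abel
      _ ≤ ‖f t x0‖ + ‖f t (x0 + tru R (x - x0)) - f t x0‖ := norm_add_le _ _
      _ ≤ C + K * ‖tru R (x - x0)‖ := add_le_add (hC t ht) h1
  have hCR : 0 ≤ C + K * R := by positivity
  obtain ⟨L, hL⟩ : ∃ L : ℝ≥0, (L : ℝ) = C + K * R := ⟨(C + K * R).toNNReal, Real.coe_toNNReal _ hCR⟩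
  obtain ⟨a, ha⟩ : ∃ a : ℝ≥0, (a : ℝ) = L * T :=
    ⟨(L * T).toNNReal, Real.coe_toNNReal _ (by positivity)⟩
  have hPL : IsPicardLindelof g (tmin := 0) (tmax := T) ⟨0, ⟨le_rfl, hT⟩⟩ x0 a 0 L (K * 2) := by
    refine ⟨fun t _ => (hgL t).lipschitzOnWith, fun x _ => ?_, fun t ht x _ => ?_, ?_⟩
    · exact (hf _).continuousOn
    · refine (hgb t ht x).trans ?_
      have := norm_tru_le hR0 (x - x0)
      rw [hL]
      gcongr
    · rw [ha, sub_zero, sub_zero, max_eq_left hT, NNReal.coe_zero, sub_zero]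
  obtain ⟨α, hα0, hα⟩ := hPL.exists_eq_forall_mem_Icc_hasDerivWithinAt₀
  have hα0' : α 0 = x0 := hα0
  refine ⟨α, hα0', ?_⟩
  -- a priori bound
  have hbd : ∀ t ∈ Icc 0 T, ‖α t - x0‖ ≤ gronwallBound 0 K C (t - 0) := by
    apply norm_le_gronwallBound_of_norm_deriv_right_le (f := fun t => α t - x0)
      (f' := fun t => g t (α t))
    · intro t ht
      exact ((hα t ht).continuousWithinAt).sub continuousWithinAt_const
    · intro t ht
      have h1 := hα t ⟨ht.1, ht.2.le⟩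
      have h2 : HasDerivWithinAt α (g t (α t)) (Ici t) t := by
        apply h1.mono_of_mem_nhdsWithin
        have : Icc t T ∈ 𝓝[≥] t := Icc_mem_nhdsGE ht.2
        exact Filter.mem_of_superset this (Icc_subset_Icc_left ht.1)
      exact h2.sub_const x0
    · simp [hα0']
    · intro t ht
      have h1 := hgb t ⟨ht.1, ht.2.le⟩ (α t)
      have h2 := norm_tru_le' hR0 (α t - x0)
      calc ‖g t (α t)‖ ≤ C + K * ‖tru R (α t - x0)‖ := h1
        _ ≤ C + K * ‖α t - x0‖ := by gcongr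
        _ = K * ‖α t - x0‖ + C := by ring
  intro t ht
  have h1 := hα t ht
  have h2 : ‖α t - x0‖ ≤ R := by
    refine (hbd t ht).trans ?_
    have := gronwallBound_mono (δ := 0) (ε := C) (K := (K : ℝ)) le_rfl hC0 K.2
      (show t - 0 ≤ T by rw [sub_zero]; exact ht.2)
    rw [hR]
    linarith
  have h3 : g t (α t) = f t (α t) := by
    simp only [hg]
    rw [tru_of_le hR0 h2]
    congr 1
    abel
  rwa [h3] at h1

end ode

end Pool.Agent.LTV
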