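import Pool.Agent.LTV.Ode

/-!
# Vertex lemma for matrix Riccati equations (MP_4c716f_mp), part 2: positivity
-/

set_option autoImplicit false

namespace Pool.Agent.LTV

open Set Metric
open scoped NNReal Topology InnerProductSpace

variable {E : Type*} [NormedAddCommGroup E] [InnerProductSpace ℂ E] [CompleteSpace E]

omit [CompleteSpace E] in
/-- derivative of `t ↦ B t (w t)` -/
lemma hasDerivAt_app {B : ℝ → E →L[ℂ] E} {B' : E →L[ℂ] E} {w : ℝ → E} {w' : E} {t : ℝ}
    (hB : HasDerivAt B B' t) (hw : HasDerivAt w w' t) :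
    HasDerivAt (fun s => B s (w s)) (B' (w t) + B t w') t := by
  have h1 : HasDerivAt (fun s => ContinuousLinearMap.restrictScalarsL ℂ E E ℝ ℝ (B s))
      (ContinuousLinearMap.restrictScalarsL ℂ E E ℝ ℝ B') t :=
    (ContinuousLinearMap.restrictScalarsL ℂ E E ℝ ℝ).hasFDerivAt.comp_hasDerivAt t hB
  exact h1.clm_apply hw

/-- A solution of `B' = W - (M B + B M)` with `W ≥ 0`, `B 0 ≥ 0` is nonnegative. -/
theorem pos_ode {T : ℝ} {B M W : ℝ → E →L[ℂ] E} (hM : Continuous M) {m : ℝ≥0}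
    (hm : ∀ x, ‖M x‖ ≤ m) (hsym : ∀ x, IsSelfAdjoint (M x))
    (hW : ∀ x ∈ Icc 0 T, ∀ v, 0 ≤ (⟪W x v, v⟫_ℂ).re)
    (hB : ∀ x ∈ Icc 0 T, HasDerivWithinAt B (W x - (M x * B x + B x * M x)) (Icc 0 T) x)
    (h0 : ∀ v, 0 ≤ (⟪B 0 v, v⟫_ℂ).re) :
    ∀ x ∈ Icc 0 T, ∀ v, 0 ≤ (⟪B x v, v⟫_ℂ).re := by
  intro x0 hx0 v
  -- the dual equation
  have hK : ∀ t : ℝ, LipschitzWith m (fun w : E => -(M (x0 - t) w)) := by
    intro t
    refine LipschitzWith.of_dist_le_mul fun x y => ?_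
    rw [dist_eq_norm, dist_eq_norm]
    have h1 : -(M (x0 - t) x) - -(M (x0 - t) y) = -(M (x0 - t) (x - y)) := by
      rw [map_sub]; abel
    rw [h1, norm_neg]
    exact ((M (x0 - t)).le_opNorm _).trans (mul_le_mul_of_nonneg_right (hm _) (norm_nonneg _))
  have hc : ∀ w : E, Continuous fun t => -(M (x0 - t) w) := by
    intro w
    exact ((ContinuousLinearMap.apply ℂ E w).continuous.comp
      (hM.comp (continuous_const.sub continuous_id))).neg
  obtain ⟨w, hw0, hw⟩ := exists_global (fun t w => -(M (x0 - t) w)) m hK hc x0 hx0.1 v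
  have hwc : ContinuousOn w (Icc 0 x0) := fun t ht => (hw t ht).continuousWithinAt
  have hBc : ContinuousOn B (Icc 0 T) := fun t ht => (hB t ht).continuousWithinAt
  set h : ℝ → ℝ := fun s => (⟪B (x0 - s) (w s), w s⟫_ℂ).re with hh
  have hsub : ∀ s ∈ Icc 0 x0, x0 - s ∈ Icc 0 T := by
    intro s hs
    exact ⟨by linarith [hs.2], by linarith [hs.1, hx0.2]⟩
  have hcont : ContinuousOn h (Icc 0 x0) := by
    have h1 : ContinuousOn (fun s => B (x0 - s)) (Icc 0 x0) :=
      hBc.comp (continuous_const.sub continuous_id).continuousOn hsub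
    have h2 : ContinuousOn (fun s => B (x0 - s) (w s)) (Icc 0 x0) := h1.clm_apply hwc
    exact Complex.continuous_re.comp_continuousOn (ContinuousOn.inner (𝕜 := ℂ) h2 hwc)
  have hder : ∀ s ∈ interior (Icc 0 x0), HasDerivWithinAt h
      (-(⟪W (x0 - s) (w s), w s⟫_ℂ).re) (interior (Icc 0 x0)) s := by
    intro s hs
    rw [interior_Icc] at hs
    have h1 : HasDerivAt w (-(M (x0 - s) (w s))) s :=
      (hw s ⟨hs.1.le, hs.2.le⟩).hasDerivAt (Icc_mem_nhds hs.1 hs.2)
    have h2 : HasDerivAt B (W (x0 - s) - (M (x0 - s) * B (x0 - s) + B (x0 - s) * M (x0 - s)))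
        (x0 - s) :=
      (hB (x0 - s) (hsub s ⟨hs.1.le, hs.2.le⟩)).hasDerivAt
        (Icc_mem_nhds (by linarith [hs.2]) (by linarith [hs.1, hx0.2]))
    have h3 : HasDerivAt (fun s => B (x0 - s))
        (-(W (x0 - s) - (M (x0 - s) * B (x0 - s) + B (x0 - s) * M (x0 - s)))) s := by
      exact h2.comp_const_sub x0 s
    have h4 := hasDerivAt_app h3 h1
    have h5 := h4.inner ℂ h1
    have h6 : HasDerivAt h (Complex.reCLM (⟪B (x0 - s) (w s), -(M (x0 - s) (w s))⟫_ℂ +
        ⟪(-(W (x0 - s) - (M (x0 - s) * B (x0 - s) + B (x0 - s) * M (x0 - s)))) (w s) +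
          B (x0 - s) (-(M (x0 - s) (w s))), w s⟫_ℂ)) s :=
      Complex.reCLM.hasFDerivAt.comp_hasDerivAt s h5
    have h7 : Complex.reCLM (⟪B (x0 - s) (w s), -(M (x0 - s) (w s))⟫_ℂ +
        ⟪(-(W (x0 - s) - (M (x0 - s) * B (x0 - s) + B (x0 - s) * M (x0 - s)))) (w s) +
          B (x0 - s) (-(M (x0 - s) (w s))), w s⟫_ℂ) = -(⟪W (x0 - s) (w s), w s⟫_ℂ).re := by
      have hs1 : ⟪M (x0 - s) (B (x0 - s) (w s)), w s⟫_ℂ = ⟪B (x0 - s) (w s), M (x0 - s) (w s)⟫_ℂ := by
        have h8 := ContinuousLinearMap.adjoint_inner_left (M (x0 - s)) (w s) (B (x0 - s) (w s))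
        have h9 : ContinuousLinearMap.adjoint (M (x0 - s)) = M (x0 - s) := hsym (x0 - s)
        rw [h9] at h8
        exact h8
      have hmul : ∀ (P Q : E →L[ℂ] E) (z : E), (P * Q) z = P (Q z) := fun _ _ _ => rfl
      simp only [Complex.reCLM_apply, neg_apply, sub_apply, add_apply, hmul, map_neg, inner_add_left,
        inner_neg_left, inner_neg_right, inner_sub_left, Complex.add_re, Complex.neg_re,
        Complex.sub_re, hs1]
      ring
    rw [h7] at h6
    exact h6.hasDerivWithinAt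
  have hanti : AntitoneOn h (Icc 0 x0) := by
    apply antitoneOn_of_hasDerivWithinAt_nonpos (convex_Icc 0 x0) hcont hder
    intro s hs
    have := hW (x0 - s) (hsub s (interior_subset hs)) (w s)
    linarith
  have h1 := hanti (left_mem_Icc.mpr hx0.1) (right_mem_Icc.mpr hx0.1) hx0.1
  simp only [hh, sub_zero, sub_self, hw0] at h1
  exact (h0 _).trans h1

end Pool.Agent.LTV
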