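import Pool.Agent.LTV.Field

/-!
# Vertex lemma for matrix Riccati equations (MP_4c716f_mp), part 5: positive operators
-/

set_option autoImplicit false

namespace Pool.Agent.LTV

open Set Metric
open scoped NNReal Topology InnerProductSpace

variable {E : Type*} [NormedAddCommGroup E] [InnerProductSpace ℂ E] [CompleteSpace E]

/-- `Q ≥ 0`, `‖Q‖ ≤ τ` gives `Q² ≤ τ Q` -/
lemma sq_le {τ : ℝ} (hτ : 0 < τ) {Q : E →L[ℂ] E} (hs : IsSelfAdjoint Q)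
    (hp : ∀ v, 0 ≤ (⟪Q v, v⟫_ℂ).re) (hn : ‖Q‖ ≤ τ) (v : E) :
    (⟪Q (Q v), v⟫_ℂ).re ≤ τ * (⟪Q v, v⟫_ℂ).re := by
  have hsym : ∀ x y, ⟪Q x, y⟫_ℂ = ⟪x, Q y⟫_ℂ := by
    intro x y
    have h8 := ContinuousLinearMap.adjoint_inner_left Q y x
    have h9 : ContinuousLinearMap.adjoint Q = Q := hs
    rw [h9] at h8
    exact h8
  have h1 := hp (v - ((1 / τ : ℝ) : ℂ) • Q v)
  have hQQ : (⟪Q (Q v), v⟫_ℂ).re = ‖Q v‖ ^ 2 := by
    rw [hsym (Q v) v, ← inner_self_eq_norm_sq (𝕜 := ℂ) (Q v)]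
    rfl
  have hvQ : (⟪Q v, Q v⟫_ℂ).re = ‖Q v‖ ^ 2 := by
    rw [← inner_self_eq_norm_sq (𝕜 := ℂ) (Q v)]
    rfl
  have h3 : (⟪Q (Q v), Q v⟫_ℂ).re ≤ τ * ‖Q v‖ ^ 2 := by
    calc (⟪Q (Q v), Q v⟫_ℂ).re ≤ ‖Q (Q v)‖ * ‖Q v‖ := re_inner_le_norm (𝕜 := ℂ) _ _
      _ ≤ (τ * ‖Q v‖) * ‖Q v‖ := by
        apply mul_le_mul_of_nonneg_right _ (norm_nonneg _)
        exact (Q.le_opNorm _).trans (mul_le_mul_of_nonneg_right hn (norm_nonneg _))
      _ = τ * ‖Q v‖ ^ 2 := by ring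
  have h4 : (⟪Q (v - ((1 / τ : ℝ) : ℂ) • Q v), v - ((1 / τ : ℝ) : ℂ) • Q v⟫_ℂ).re =
      (⟪Q v, v⟫_ℂ).re - 2 / τ * ‖Q v‖ ^ 2 + (1 / τ) ^ 2 * (⟪Q (Q v), Q v⟫_ℂ).re := by
    rw [map_sub, map_smul, inner_sub_left, inner_sub_right, inner_sub_right, inner_smul_left,
      inner_smul_left, inner_smul_right, inner_smul_right, Complex.conj_ofReal]
    simp only [Complex.sub_re, Complex.re_ofReal_mul, hQQ, hvQ]
    ring
  rw [h4] at h1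
  have h5 : (1 / τ) ^ 2 * (⟪Q (Q v), Q v⟫_ℂ).re ≤ 1 / τ * ‖Q v‖ ^ 2 := by
    calc (1 / τ) ^ 2 * (⟪Q (Q v), Q v⟫_ℂ).re ≤ (1 / τ) ^ 2 * (τ * ‖Q v‖ ^ 2) := by gcongr
      _ = 1 / τ * ‖Q v‖ ^ 2 := by field_simp
  have h6 : 1 / τ * ‖Q v‖ ^ 2 ≤ (⟪Q v, v⟫_ℂ).re := by
    have : 2 / τ * ‖Q v‖ ^ 2 = 2 * (1 / τ * ‖Q v‖ ^ 2) := by ring
    linarith
  rw [hQQ]
  calc ‖Q v‖ ^ 2 = τ * (1 / τ * ‖Q v‖ ^ 2) := by field_simp
    _ ≤ τ * (⟪Q v, v⟫_ℂ).re := by gcongr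

/-- `0 ≤ B ≤ C` gives `‖B‖ ≤ ‖C‖` -/
lemma norm_mono {B C : E →L[ℂ] E} (hB : IsSelfAdjoint B) (hC : IsSelfAdjoint C)
    (h0 : ∀ v, 0 ≤ (⟪B v, v⟫_ℂ).re) (h1 : ∀ v, 0 ≤ (⟪(C - B) v, v⟫_ℂ).re) : ‖B‖ ≤ ‖C‖ := by
  have hBp : B.IsPositive := ContinuousLinearMap.isPositive_def'.mpr ⟨hB, h0⟩
  have hCp : (C - B).IsPositive := ContinuousLinearMap.isPositive_def'.mpr ⟨hC.sub hB, h1⟩
  have a1 : 0 ≤ B := (ContinuousLinearMap.nonneg_iff_isPositive B).mpr hBp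
  have a2 : B ≤ C := (ContinuousLinearMap.le_def B C).mpr hCp
  exact CStarAlgebra.norm_le_norm_of_nonneg_of_le a1 a2

/-- the norm of a positive operator on a finite dimensional space is an eigenvalue -/
lemma exists_top [FiniteDimensional ℂ E] {κ : E →L[ℂ] E} (hs : IsSelfAdjoint κ)
    (hp : ∀ v, 0 ≤ (⟪κ v, v⟫_ℂ).re) (hc : 0 < ‖κ‖) :
    ∃ v : E, ‖v‖ = 1 ∧ κ v = ((‖κ‖ : ℝ) : ℂ) • v := by
  set c := ‖κ‖ with hcd
  have hsym : ∀ x y, ⟪κ x, y⟫_ℂ = ⟪x, κ y⟫_ℂ := by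
    intro x y
    have h8 := ContinuousLinearMap.adjoint_inner_left κ y x
    have h9 : ContinuousLinearMap.adjoint κ = κ := hs
    rw [h9] at h8
    exact h8
  have : Nontrivial E := by
    by_contra hn
    rw [not_nontrivial_iff_subsingleton] at hn
    have : κ = 0 := by ext x; exact Subsingleton.elim _ _
    rw [hcd, this, norm_zero] at hc
    exact lt_irrefl _ hc
  have hprop : ProperSpace E := FiniteDimensional.proper ℂ E
  have hcomp : IsCompact (sphere (0 : E) 1) := isCompact_sphere 0 1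
  have hne : (sphere (0 : E) 1).Nonempty := by
    obtain ⟨x, hx⟩ := exists_ne (0 : E)
    have hx' : 0 < ‖x‖ := norm_pos_iff.mpr hx
    refine ⟨((‖x‖⁻¹ : ℝ) : ℂ) • x, ?_⟩
    rw [mem_sphere_zero_iff_norm, norm_smul, Complex.norm_real, norm_inv, norm_norm,
      inv_mul_cancel₀ hx'.ne']
  obtain ⟨v, hv, hmax⟩ := hcomp.exists_isMaxOn hne (f := fun x => ‖κ x‖)
    (κ.continuous.norm.continuousOn)
  rw [mem_sphere_zero_iff_norm] at hv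
  have hcv : ‖κ v‖ = c := by
    apply le_antisymm
    · have := κ.le_opNorm v
      rwa [hv, mul_one] at this
    · apply ContinuousLinearMap.opNorm_le_bound _ (norm_nonneg _)
      intro x
      by_cases hx : x = 0
      · simp [hx]
      · have hx' : 0 < ‖x‖ := norm_pos_iff.mpr hx
        have h1 := hmax (a := ((‖x‖⁻¹ : ℝ) : ℂ) • x) (by
          rw [mem_sphere_zero_iff_norm, norm_smul, Complex.norm_real, norm_inv, norm_norm,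
            inv_mul_cancel₀ hx'.ne'])
        simp only [mem_setOf_eq, map_smul, norm_smul, Complex.norm_real, norm_inv, norm_norm] at h1
        rw [inv_mul_le_iff₀ hx'] at h1
        linarith
  -- κ² v = c² v
  have hsq : κ (κ v) = ((c ^ 2 : ℝ) : ℂ) • v := by
    have h1 : ‖κ (κ v) - ((c ^ 2 : ℝ) : ℂ) • v‖ ^ 2 ≤ 0 := by
      rw [@norm_sub_sq ℂ]
      have h2 : ‖κ (κ v)‖ ≤ c * c := by
        have := κ.le_opNorm (κ v)
        rwa [hcv] at this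
      have h3 : RCLike.re ⟪κ (κ v), ((c ^ 2 : ℝ) : ℂ) • v⟫_ℂ = c ^ 2 * c ^ 2 := by
        rw [inner_smul_right, hsym]
        have h4 : ⟪κ v, κ v⟫_ℂ = ((c ^ 2 : ℝ) : ℂ) := by
          rw [inner_self_eq_norm_sq_to_K, hcv]
          norm_cast
        rw [h4, ← Complex.ofReal_mul]
        exact Complex.ofReal_re _
      have h5 : ‖((c ^ 2 : ℝ) : ℂ) • v‖ = c ^ 2 := by
        rw [norm_smul, Complex.norm_real, hv, mul_one, Real.norm_of_nonneg (by positivity)]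
      rw [h3, h5]
      have h6 : ‖κ (κ v)‖ ^ 2 ≤ (c * c) ^ 2 := by gcongr
      nlinarith
    have h2 : ‖κ (κ v) - ((c ^ 2 : ℝ) : ℂ) • v‖ = 0 := by
      have := sq_nonneg ‖κ (κ v) - ((c ^ 2 : ℝ) : ℂ) • v‖
      nlinarith [norm_nonneg (κ (κ v) - ((c ^ 2 : ℝ) : ℂ) • v)]
    exact sub_eq_zero.mp (norm_eq_zero.mp h2)
  -- w = c v - κ v
  set w : E := ((c : ℝ) : ℂ) • v - κ v with hw
  have hκw : κ w = -(((c : ℝ) : ℂ) • w) := by
    rw [hw, map_sub, map_smul, hsq, smul_sub, smul_smul, neg_sub, ← Complex.ofReal_mul, ← pow_two]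
  have h1 := hp w
  rw [hκw, inner_neg_left, inner_smul_left, Complex.conj_ofReal, Complex.neg_re,
    Complex.re_ofReal_mul] at h1
  have h2 : (⟪w, w⟫_ℂ).re = ‖w‖ ^ 2 := by
    rw [← inner_self_eq_norm_sq (𝕜 := ℂ) w]
    rfl
  rw [h2] at h1
  have h3 : ‖w‖ ^ 2 ≤ 0 := by
    by_contra hcon
    push Not at hcon
    have := mul_pos hc hcon
    linarith
  have h4 : w = 0 := by
    have : ‖w‖ = 0 := by nlinarith [norm_nonneg w]
    exact norm_eq_zero.mp this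
  refine ⟨v, hv, ?_⟩
  rw [hw, sub_eq_zero] at h4
  exact h4.symm

end Pool.Agent.LTV
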